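import Pool.Agent.H64.EP.Targets

/-!
MP_e01ba1_co, module MAC: Maclaurin's inequality for the second highest elementary symmetric
function, in exponential form.
-/

set_option autoImplicit false

open Finset

namespace Pool.Agent.H56.EP.MAC

open Pool.Agent.H64.EP

/-- the arithmetic-geometric mean inequality -/
lemma amgm (q : ℕ) (y : Fin (q + 1) → ℝ) (hy : ∀ i, 0 ≤ y i) :
    ∏ i, y i ≤ ((∑ i, y i) / ((q : ℝ) + 1)) ^ (q + 1) := by
  have h := Real.geom_mean_le_arith_mean (univ : Finset (Fin (q + 1))) (fun _ => (1 : ℝ)) y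
    (fun _ _ => zero_le_one) (by simp; positivity) (fun i _ => hy i)
  simp only [Real.rpow_one, one_mul, sum_const, card_univ, Fintype.card_fin, nsmul_eq_mul,
    mul_one] at h
  push_cast at h
  have hP : 0 ≤ ∏ i, y i := prod_nonneg fun i _ => hy i
  have h2 : ((∏ i, y i) ^ (((q : ℝ) + 1)⁻¹)) ^ (q + 1) ≤
      ((∑ i, y i) / ((q : ℝ) + 1)) ^ (q + 1) := by
    apply pow_le_pow_left₀ _ h
    positivity
  have h3 : ((∏ i, y i) ^ (((q : ℝ) + 1)⁻¹)) ^ (q + 1) = ∏ i, y i := by
    rw [← Real.rpow_natCast, ← Real.rpow_mul hP]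
    push_cast
    rw [inv_mul_cancel₀ (by positivity), Real.rpow_one]
  rwa [h3] at h2

/-- the numerical step -/
lemma step (q : ℕ) (a w : ℝ) (ha : 0 ≤ a) (hw : 0 ≤ w) :
    a ^ (q + 1) + w * (((q : ℝ) + 1) * a ^ q) ≤
      ((q : ℝ) + 2) * ((w + ((q : ℝ) + 1) * a) / ((q : ℝ) + 2)) ^ (q + 1) := by
  have hq2 : (0 : ℝ) < (q : ℝ) + 2 := by positivity
  rcases ha.eq_or_lt with h0 | hpos
  · subst h0
    rcases Nat.eq_zero_or_pos q with hq | hq
    · subst hq
      norm_num
      linarith
    · rw [zero_pow (by omega), zero_pow (by omega)]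
      simp only [mul_zero, add_zero]
      positivity
  · set u : ℝ := (w / a - 1) / ((q : ℝ) + 2) with hu
    have hwa : 0 ≤ w / a := div_nonneg hw ha
    have hu2 : -2 ≤ u := by
      rw [hu, le_div_iff₀ hq2]
      have : (0 : ℝ) ≤ q := Nat.cast_nonneg q
      linarith
    have hB := one_add_mul_le_pow hu2 (q + 1)
    push_cast at hB
    have hA : (w + ((q : ℝ) + 1) * a) / ((q : ℝ) + 2) = a * (1 + u) := by
      rw [hu]
      field_simp
      ring
    rw [hA, mul_pow]
    have h1 : a ^ (q + 1) + w * (((q : ℝ) + 1) * a ^ q) =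
        ((q : ℝ) + 2) * (a ^ (q + 1) * (1 + ((q : ℝ) + 1) * u)) := by
      rw [hu, pow_succ]
      field_simp
      ring
    rw [h1]
    apply mul_le_mul_of_nonneg_left _ hq2.le
    exact mul_le_mul_of_nonneg_left hB (by positivity)

/-- Maclaurin's inequality for `e_q` of `q + 1` variables -/
lemma mac (q : ℕ) (y : Fin (q + 1) → ℝ) (hy : ∀ i, 0 ≤ y i) :
    ∑ s, ∏ s', (if s' = s then 1 else y s') ≤
      ((q : ℝ) + 1) * ((∑ i, y i) / ((q : ℝ) + 1)) ^ q := by
  induction q with
  | zero => simp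
  | succ q ih =>
    have ih' := ih (fun i => y i.succ) (fun i => hy _)
    have hP := amgm q (fun i => y i.succ) (fun i => hy _)
    set a : ℝ := (∑ i : Fin (q + 1), y i.succ) / ((q : ℝ) + 1) with ha
    have ha0 : 0 ≤ a := div_nonneg (sum_nonneg fun i _ => hy _) (by positivity)
    have hsum : ∑ i, y i = y 0 + ((q : ℝ) + 1) * a := by
      rw [Fin.sum_univ_succ, ha]
      field_simp
    have hL : ∑ s : Fin (q + 1 + 1), ∏ s', (if s' = s then 1 else y s') =
        ∏ i : Fin (q + 1), y i.succ +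
          y 0 * ∑ s : Fin (q + 1), ∏ s' : Fin (q + 1), (if s' = s then 1 else y s'.succ) := by
      rw [Fin.sum_univ_succ]
      congr 1
      · rw [Fin.prod_univ_succ]
        simp [Fin.succ_ne_zero]
      · rw [mul_sum]
        apply sum_congr rfl
        intro s _
        rw [Fin.prod_univ_succ]
        simp [(Fin.succ_ne_zero s).symm]
    rw [hL, hsum]
    have hs := step q a (y 0) ha0 (hy 0)
    push_cast
    have e1 : ((q : ℝ) + 1 + 1) = (q : ℝ) + 2 := by ring
    rw [e1]
    calc ∏ i : Fin (q + 1), y i.succ +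
          y 0 * ∑ s : Fin (q + 1), ∏ s' : Fin (q + 1), (if s' = s then 1 else y s'.succ)
        ≤ a ^ (q + 1) + y 0 * (((q : ℝ) + 1) * a ^ q) :=
          add_le_add hP (mul_le_mul_of_nonneg_left ih' (hy 0))
      _ ≤ _ := hs

theorem pf_MAC : T_MAC := by
  intro q ψ
  have h := mac q (fun s => Real.exp (ψ s)) (fun s => (Real.exp_pos _).le)
  have hexp : ∀ s : Fin (q + 1), Real.exp (∑ s', if s' = s then 0 else ψ s') =
      ∏ s', (if s' = s then 1 else Real.exp (ψ s')) := by
    intro s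
    rw [Real.exp_sum]
    apply prod_congr rfl
    intro s' _
    split_ifs
    · exact Real.exp_zero
    · rfl
  unfold avg
  simp only [Fintype.card_fin]
  push_cast
  rw [sum_congr rfl (fun s _ => hexp s), div_le_iff₀ (by positivity), mul_comm]
  exact h

end Pool.Agent.H56.EP.MAC
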